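import Pool.Agent.Helper310.Contra.Count

/-!
# Evaluation of the signed count modulo 16
-/

open Finset

namespace Contra

section Walk

variable {V β : Type*} (s : Equiv.Perm V)

lemma walk_mem (hs : ∀ x y, ∃ k : ℕ, (s ^ k) x = y) (g : V → β) (u v : V)
    (h : ∀ w, s w ≠ u → s w ≠ v → g (s w) = g w) (w : V) : g w = g u ∨ g w = g v := by
  obtain ⟨k, hk⟩ := hs u w
  induction k generalizing w with
  | zero => left; rw [← hk]; simp
  | succ k ih =>
    by_cases h1 : w = u
    · left; rw [h1]
    by_cases h2 : w = v
    · right; rw [h2]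
    rw [pow_succ', Equiv.Perm.mul_apply] at hk
    have := h ((s ^ k) u) (by rw [hk]; exact h1) (by rw [hk]; exact h2)
    rw [hk] at this
    rw [this]
    exact ih _ rfl

lemma walk_end (hs : ∀ x y, ∃ k : ℕ, (s ^ k) x = y) (g : V → β) {u v : V} (huv : u ≠ v)
    (h : ∀ w, s w ≠ u → s w ≠ v → g (s w) = g w) : g (s.symm v) = g u := by
  classical
  have hex := hs u v
  set k := Nat.find hex with hk
  have hk1 : (s ^ k) u = v := Nat.find_spec hex
  have hmin : ∀ j < k, (s ^ j) u ≠ v := fun j hj => Nat.find_min hex hj
  have hk0 : k ≠ 0 := by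
    intro h0
    rw [h0] at hk1
    exact huv (by simpa using hk1)
  have key : ∀ j, j < k → g ((s ^ j) u) = g u := by
    intro j
    induction j with
    | zero => intro _; simp
    | succ j ih =>
      intro hj
      rw [pow_succ', Equiv.Perm.mul_apply, h, ih (by omega)]
      · intro h1
        apply hmin (k - (j + 1)) (by omega)
        have h2 : (s ^ (j + 1)) u = u := by rw [pow_succ', Equiv.Perm.mul_apply, h1]
        calc (s ^ (k - (j + 1))) u = (s ^ (k - (j + 1))) ((s ^ (j + 1)) u) := by rw [h2]
          _ = (s ^ (k - (j + 1) + (j + 1))) u := by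
            rw [pow_add s (k - (j + 1)) (j + 1), Equiv.Perm.mul_apply]
          _ = v := by rw [Nat.sub_add_cancel (by omega), hk1]
      · intro h1
        apply hmin (j + 1) hj
        rw [pow_succ', Equiv.Perm.mul_apply, h1]
  have h3 : s.symm v = (s ^ (k - 1)) u := by
    rw [Equiv.symm_apply_eq, ← Equiv.Perm.mul_apply, ← pow_succ', Nat.sub_add_cancel (by omega),
      hk1]
  rw [h3]
  exact key _ (by omega)

end Walk

section

variable {V : Type*} (σ : Bool → Equiv.Perm V) [DecidableEq V] [Fintype V]

/-- Number of colourings compatible with the transitions `T`. -/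
def Ncol (T : V → Tr) : ℕ := ((Col σ).filter (fun f => ∀ v, Con (T v) v f)).card

lemma sum_prod_ind (T : V → Tr) : ∑ f ∈ Col σ, ∏ v, ind (T v) v f = (Ncol σ T : ℤ) := by
  unfold Ncol
  rw [← Finset.sum_boole]
  apply Finset.sum_congr rfl
  intro f _
  unfold ind
  rw [Fintype.prod_boole]

lemma sum_Tr (g : Tr → ℤ) : ∑ t, g t = g .X + g .Y + g .Z := by
  have : (Finset.univ : Finset Tr) = {.X, .Y, .Z} := by decide
  rw [this, Finset.sum_insert (by decide), Finset.sum_insert (by decide),
    Finset.sum_singleton]
  ring

lemma lemmaA_N (v₀ : V) (T : V → Tr) :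
    (16 : ℤ) ∣ (Ncol σ (Function.update T v₀ .X) : ℤ) + Ncol σ (Function.update T v₀ .Y)
      + Ncol σ (Function.update T v₀ .Z) := by
  have h1 := lemmaA' σ v₀ (fun v => T v.1)
  have h2 : ∀ t, ∑ f ∈ Col σ, ind t v₀ f * ∏ v : {v // v ≠ v₀}, ind (T v.1) v.1 f =
      (Ncol σ (Function.update T v₀ t) : ℤ) := by
    intro t
    rw [← sum_prod_ind]
    apply Finset.sum_congr rfl
    intro f _
    rw [Fintype.prod_eq_mul_prod_subtype_ne _ v₀, Function.update_self]
    congr 1
    apply Finset.prod_congr rfl
    intro v _
    rw [Function.update_of_ne v.2]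
  rw [← h2, ← h2, ← h2]
  rw [← sum_Tr (fun t => ∑ f ∈ Col σ, ind t v₀ f * ∏ v : {v // v ≠ v₀}, ind (T v.1) v.1 f),
    Finset.sum_comm]
  convert h1 using 2
  rw [Finset.sum_mul]

lemma Ncol_even [Nonempty V] (T : V → Tr) : 2 ∣ Ncol σ T := by
  unfold Ncol
  have : Nonempty (HE V) := ⟨(Classical.arbitrary V, false, false)⟩
  apply even_card_of_shift
  intro f hf
  simp only [Col, mem_filter, mem_univ, true_and] at hf ⊢
  refine ⟨fun h => by rw [hf.1], fun v q => ?_⟩
  have := hf.2 v q
  simp only [this]

lemma const_count [Nonempty V] (T : V → Tr)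
    (h : ∀ f ∈ Col σ, (∀ v, Con (T v) v f) → ∀ x y, f x = f y) : Ncol σ T = 6 := by
  unfold Ncol
  have h6 : (Finset.univ : Finset (ZMod 6)).card = 6 := rfl
  refine Eq.trans ?_ h6
  let x₀ : HE V := (Classical.arbitrary V, false, false)
  apply Finset.card_nbij' (fun f => f x₀) (fun c _ => c)
  · intro f _; simp
  · intro c _
    rw [Finset.mem_coe]
    exact Finset.mem_filter.2
      ⟨Finset.mem_filter.2 ⟨Finset.mem_univ _, fun _ => rfl⟩, fun v q => rfl⟩
  · intro f hf
    rw [Finset.mem_coe, Finset.mem_filter] at hf
    funext x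
    exact h f hf.1 hf.2 _ _
  · intro c _; rfl

variable (hσ : ∀ i x y, ∃ k : ℕ, (σ i ^ k) x = y)

lemma col_out {f : HE V → ZMod 6} (hf : f ∈ Col σ) (v : V) (i : Bool) :
    f (v, i, false) = f ((σ i).symm v, i, true) := by
  simp only [Col, mem_filter, mem_univ, true_and] at hf
  have := hf (v, i, false)
  rw [eps_in] at this
  exact this.symm

lemma col_in {f : HE V → ZMod 6} (hf : f ∈ Col σ) (v : V) (i : Bool) :
    f (σ i v, i, false) = f (v, i, true) := by
  rw [col_out σ hf]; simp

include hσ

lemma Ncol_none [Nonempty V] : Ncol σ (fun _ => .X) = 36 := by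
  unfold Ncol
  have h6 : (Finset.univ : Finset (Bool → ZMod 6)).card = 36 := rfl
  rw [← h6]
  let v₀ : V := Classical.arbitrary V
  apply Finset.card_nbij' (fun f => (fun i => f (v₀, i, true))) (fun c h => c h.2.1)
  · intro f _; simp
  · intro c _
    rw [Finset.mem_coe]
    simp only [Col, mem_univ, mem_filter, true_and]
    constructor
    · rintro ⟨v, i, d⟩
      cases d <;> simp
    · intro v q
      rfl
  · intro f hf
    rw [Finset.mem_coe, Finset.mem_filter] at hf
    have h1 : ∀ i w, f (w, i, true) = f (v₀, i, true) := by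
      intro i w
      rcases walk_mem (σ i) (hσ i) (fun w => f (w, i, true)) v₀ v₀ (fun w _ _ => by
        have := hf.2 (σ i w) (i, false)
        simp only [flip, Bool.not_false] at this
        rw [this, col_in σ hf.1]) w with h | h <;> exact h
    funext x
    obtain ⟨v, i, d⟩ := x
    cases d
    · rw [col_out σ hf.1]; exact (h1 i _).symm
    · exact (h1 i v).symm
  · intro c _
    rfl

lemma Ncol_one [Nonempty V] (u : V) : Ncol σ (Function.update (fun _ => .X) u .Z) = 6 := by
  apply const_count
  intro f hf hc
  have hX : ∀ w, w ≠ u → ∀ i, f (w, i, true) = f (w, i, false) := by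
    intro w hw i
    have := hc w (i, false)
    rw [Function.update_of_ne hw] at this
    exact this
  have hZ : ∀ q, f (u, flip .Z q) = f (u, q) := by
    have := hc u
    rw [Function.update_self] at this
    exact this
  have h1 : ∀ i w, f (w, i, true) = f (u, i, true) := by
    intro i w
    rcases walk_mem (σ i) (hσ i) (fun w => f (w, i, true)) u u (fun w hw _ => by
        rw [hX _ hw, col_in σ hf]) w with h | h <;> exact h
  have h2 : ∀ i w, f (w, i, false) = f (u, i, true) := by
    intro i w
    rw [col_out σ hf]; exact h1 i _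
  have h3 : f (u, true, true) = f (u, false, true) := by
    rw [← h2 false u]
    exact hZ (false, false)
  have h4 : ∀ x, f x = f (u, false, true) := by
    rintro ⟨v, i, d⟩
    have : f (v, i, d) = f (u, i, true) := by
      cases d
      · exact h2 i v
      · exact h1 i v
    rw [this]
    cases i
    · rfl
    · exact h3
  intro x y
  rw [h4 x, h4 y]

lemma Ncol_ZY [Nonempty V] {u v : V} (huv : u ≠ v) :
    Ncol σ (Function.update (Function.update (fun _ => .X) u .Z) v .Y) = 6 := by
  apply const_count
  intro f hf hc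
  have hX : ∀ w, w ≠ u → w ≠ v → ∀ i, f (w, i, true) = f (w, i, false) := by
    intro w hw hw' i
    have := hc w (i, false)
    rw [Function.update_of_ne hw', Function.update_of_ne hw] at this
    exact this
  have hZ : ∀ q, f (u, flip .Z q) = f (u, q) := by
    have := hc u
    rw [Function.update_of_ne huv, Function.update_self] at this
    exact this
  have hY : ∀ q, f (v, flip .Y q) = f (v, q) := by
    have := hc v
    rw [Function.update_self] at this
    exact this
  have hstep : ∀ i w, σ i w ≠ u → σ i w ≠ v → f (σ i w, i, true) = f (w, i, true) := by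
    intro i w h1 h2
    rw [hX _ h1 h2, col_in σ hf]
  have h1 : ∀ i w, f (w, i, true) = f (u, i, true) ∨ f (w, i, true) = f (v, i, true) := by
    intro i w
    exact walk_mem (σ i) (hσ i) (fun w => f (w, i, true)) u v (hstep i) w
  have h2 : ∀ i, f (v, i, false) = f (u, i, true) := by
    intro i
    rw [col_out σ hf]
    exact walk_end (σ i) (hσ i) (fun w => f (w, i, true)) huv (hstep i)
  have h3 : ∀ i, f (u, i, false) = f (v, i, true) := by
    intro i
    rw [col_out σ hf]
    exact walk_end (σ i) (hσ i) (fun w => f (w, i, true)) huv.symm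
      (fun w h1 h2 => hstep i w h2 h1)
  -- all four values agree
  have e1 : f (u, true, true) = f (u, false, true) := by
    rw [← h2 true, ← h2 false]
    exact hY (false, false)
  have e2 : f (v, false, true) = f (u, false, true) := by
    rw [← h3 false, ← e1]
    exact (hZ (false, false)).symm
  have e3 : f (v, true, true) = f (u, false, true) := by
    rw [← h3 true]
    exact (hZ (true, false)).symm
  have h4 : ∀ w i, f (w, i, true) = f (u, false, true) := by
    intro w i
    rcases h1 i w with h | h <;> rw [h] <;> cases i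
    · rfl
    · exact e1
    · exact e2
    · exact e3
  have h5 : ∀ x, f x = f (u, false, true) := by
    rintro ⟨w, i, d⟩
    cases d
    · rw [col_out σ hf]; exact h4 _ i
    · exact h4 w i
  intro x y
  rw [h5 x, h5 y]

lemma Ncol_two [Nonempty V] {u v : V} (huv : u ≠ v) :
    (4 : ℤ) ∣ Ncol σ (Function.update (Function.update (fun _ => .X) u .Z) v .Z) := by
  have h := lemmaA_N σ v (Function.update (fun _ => .X) u .Z)
  rw [Ncol_ZY σ hσ huv] at h
  have h1 : Function.update (Function.update (fun _ => Tr.X) u .Z) v .X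
      = Function.update (fun _ => Tr.X) u .Z := by
    rw [Function.update_eq_self_iff]
    rw [Function.update_of_ne huv.symm]
  rw [h1, Ncol_one σ hσ u] at h
  omega

/-- Transitions `Z` on `U` and `X` elsewhere. -/
lemma Ncol_big [Nonempty V] (U : Finset V) :
    (16 : ℤ) ∣ 2 ^ U.card * (Ncol σ (fun v => if v ∈ U then .Z else .X) : ℤ) -
      (if U.card = 0 then 36 else if U.card = 1 then 12 else 0) := by
  rcases Nat.lt_or_ge U.card 4 with h | h
  · interval_cases hU : U.card
    · rw [Finset.card_eq_zero] at hU
      subst hU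
      simp [Ncol_none σ hσ]
    · obtain ⟨u, rfl⟩ := Finset.card_eq_one.1 hU
      have : (fun v => if v ∈ ({u} : Finset V) then Tr.Z else Tr.X)
          = Function.update (fun _ => .X) u .Z := by
        funext v
        by_cases hv : v = u
        · subst hv; simp
        · simp [hv]
      rw [this, Ncol_one σ hσ]
      norm_num
    · obtain ⟨u, v, huv, rfl⟩ := Finset.card_eq_two.1 hU
      have : (fun w => if w ∈ ({u, v} : Finset V) then Tr.Z else Tr.X)
          = Function.update (Function.update (fun _ => .X) u .Z) v .Z := by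
        funext w
        by_cases hw : w = v
        · subst hw; simp
        · by_cases hw' : w = u
          · subst hw'; simp [hw]
          · simp [hw, hw']
      rw [this]
      obtain ⟨r, hr⟩ := Ncol_two σ hσ huv
      refine ⟨r, ?_⟩
      rw [hr]; norm_num; ring
    · obtain ⟨r, hr⟩ := Ncol_even σ (fun v => if v ∈ U then .Z else .X)
      refine ⟨r, ?_⟩
      rw [hr]; push_cast; norm_num; ring
  · have h1 : U.card ≠ 0 := by omega
    have h2 : U.card ≠ 1 := by omega
    rw [if_neg h1, if_neg h2, sub_zero]
    apply Dvd.dvd.mul_right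
    have : (16 : ℤ) = 2 ^ 4 := by norm_num
    rw [this]
    exact pow_dvd_pow 2 h

/-- The signed weights. -/
def cW (V : Type*) : V → Tr → ℤ := fun _ t => match t with
  | .X => 0
  | .Y => -1
  | .Z => 1

lemma F_cW_add [Nonempty V] :
    (16 : ℤ) ∣ F σ (fun v t => cW V v t + 1) - (36 + 12 * Fintype.card V) := by
  classical
  have h1 : F σ (fun v t => cW V v t + 1) =
      ∑ U : Finset V, 2 ^ U.card * (Ncol σ (fun v => if v ∈ U then .Z else .X) : ℤ) := by
    unfold F
    have h2 : ∀ f : HE V → ZMod 6, ∏ v, ∑ t, (cW V v t + 1) * ind t v f =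
        ∑ U : Finset V, 2 ^ U.card * ∏ v, ind (if v ∈ U then .Z else .X) v f := by
      intro f
      have h3 : ∀ v : V, ∑ t, (cW V v t + 1) * ind t v f = 2 * ind .Z v f + ind .X v f := by
        intro v
        rw [sum_Tr]
        simp only [cW]; ring
      rw [Finset.prod_congr rfl (fun v _ => h3 v), Fintype.prod_add]
      apply Finset.sum_congr rfl
      intro U _
      rw [Finset.prod_mul_distrib, Finset.prod_const, mul_assoc]
      congr 1
      rw [← Finset.prod_mul_prod_compl U]
      congr 1
      · apply Finset.prod_congr rfl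
        intro v hv
        simp [hv]
      · apply Finset.prod_congr rfl
        intro v hv
        have : v ∉ U := by simpa using hv
        simp [this]
    rw [Finset.sum_congr rfl (fun f _ => h2 f), Finset.sum_comm]
    apply Finset.sum_congr rfl
    intro U _
    rw [← Finset.mul_sum, sum_prod_ind]
  have h4 : (36 + 12 * Fintype.card V : ℤ) =
      ∑ U : Finset V, (if U.card = 0 then 36 else if U.card = 1 then 12 else 0 : ℤ) := by
    have h5 := Finset.sum_powerset_apply_card
      (fun m => (if m = 0 then 36 else if m = 1 then 12 else 0 : ℤ)) (x := (Finset.univ : Finset V))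
    rw [Finset.powerset_univ] at h5
    rw [h5, Finset.card_univ]
    obtain ⟨k, hk⟩ : ∃ k, Fintype.card V = k + 1 :=
      ⟨Fintype.card V - 1, by have := Fintype.card_pos (α := V); omega⟩
    rw [hk, Finset.sum_range_succ', Finset.sum_range_succ']
    simp
    ring
  rw [h1, h4, ← Finset.sum_sub_distrib]
  apply Finset.dvd_sum
  intro U _
  exact Ncol_big σ hσ U

/-- The signed count is nonzero unless `|V| ≡ 1 (mod 4)`. -/
theorem F_cW_ne_zero [Nonempty V] (hn : Fintype.card V % 4 ≠ 1) : F σ (cW V) ≠ 0 := by
  intro h0
  have h1 := F_shift σ (cW V)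
  have h2 := F_cW_add σ hσ
  rw [h0, sub_zero] at h1
  have h3 := dvd_sub h1 h2
  rw [sub_sub_cancel] at h3
  omega

/-- **Colouring lemma.** -/
theorem exists_colouring [Nonempty V] (hn : Fintype.card V % 4 ≠ 1) :
    ∃ f : Bool → V → ZMod 6, (∀ i v, f i ((σ i).symm v) ≠ f i v) ∧
      ∀ v, (f true v = f false v ∧ f true ((σ true).symm v) = f false ((σ false).symm v)) ∨
        (f true v = f false ((σ false).symm v) ∧ f true ((σ true).symm v) = f false v) := by
  have h := F_cW_ne_zero σ hσ hn
  unfold F at h
  obtain ⟨f, hf, hf0⟩ := Finset.exists_ne_zero_of_sum_ne_zero h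
  rw [Finset.prod_ne_zero_iff] at hf0
  have key : ∀ v, (Con .Z v f ∧ ¬ Con .Y v f) ∨ (Con .Y v f ∧ ¬ Con .Z v f) := by
    intro v
    have := hf0 v (Finset.mem_univ v)
    rw [sum_Tr] at this
    simp only [cW, ind] at this
    by_cases h1 : Con .Z v f <;> by_cases h2 : Con .Y v f <;> simp_all
  have hZ : ∀ v, Con .Z v f ↔
      f (v, true, true) = f (v, false, false) ∧ f (v, true, false) = f (v, false, true) := by
    intro v
    constructor
    · intro h
      exact ⟨h (false, false), h (false, true)⟩
    · rintro ⟨h1, h2⟩ ⟨a, b⟩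
      cases a <;> cases b
      · exact h1
      · exact h2
      · exact h2.symm
      · exact h1.symm
  have hY : ∀ v, Con .Y v f ↔
      f (v, true, true) = f (v, false, true) ∧ f (v, true, false) = f (v, false, false) := by
    intro v
    constructor
    · intro h
      exact ⟨h (false, true), h (false, false)⟩
    · rintro ⟨h1, h2⟩ ⟨a, b⟩
      cases a <;> cases b
      · exact h2
      · exact h1
      · exact h2.symm
      · exact h1.symm
  refine ⟨fun i v => f (v, i, true), ?_, ?_⟩
  · intro i v
    simp only
    rw [← col_out σ hf]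
    have := key v
    rw [hZ, hY] at this
    intro h
    cases i
    · rw [h] at this; tauto
    · rw [h] at this
      rcases this with ⟨⟨h1, h2⟩, h3⟩ | ⟨⟨h1, h2⟩, h3⟩
      · apply h3; exact ⟨h2, h1⟩
      · apply h3; exact ⟨h2, h1⟩
  · intro v
    simp only
    rw [← col_out σ hf, ← col_out σ hf]
    have := key v
    rw [hZ, hY] at this
    tauto

end

end Contra
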