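import Pool.Agent.Helper310.Contra.Defs
import Pool.Agent.Helper310.Contra.Eval

/-!
# From a colouring to a faithful circuit cover
-/

namespace Contra

variable {W V : Type*} (P : W → Bool × V) (σ : Bool → Equiv.Perm V)
  (f : Bool → V → ZMod 6)

/-- `x` is a colour of the edge `ab`. -/
def K (x : ZMod 6) (a b : W) : Prop :=
  ((P a).1 = (P b).1 ∧
    ((σ (P a).1 (P a).2 = (P b).2 ∧ f (P a).1 (P a).2 = x) ∨
      (σ (P a).1 (P b).2 = (P a).2 ∧ f (P a).1 (P b).2 = x))) ∨
  ((P a).1 ≠ (P b).1 ∧ (P a).2 = (P b).2 ∧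
    (f (P a).1 (P a).2 = x ∨ f (P a).1 ((σ (P a).1).symm (P a).2) = x))

/-- Hypotheses on the colouring. -/
structure Good : Prop where
  ne : ∀ i v, f i ((σ i).symm v) ≠ f i v
  pair : ∀ v, (f true v = f false v ∧ f true ((σ true).symm v) = f false ((σ false).symm v)) ∨
        (f true v = f false ((σ false).symm v) ∧ f true ((σ true).symm v) = f false v)
  two : ∀ i v, σ i (σ i v) ≠ v

variable {P σ f}

lemma Good.pair' (h : Good σ f) {i j : Bool} (hij : i ≠ j) (v : V) (x : ZMod 6) :
    (f i v = x ∨ f i ((σ i).symm v) = x) ↔ (f j v = x ∨ f j ((σ j).symm v) = x) := by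
  have := h.pair v
  cases i <;> cases j
  · exact absurd rfl hij
  · rcases this with ⟨h1, h2⟩ | ⟨h1, h2⟩
    · rw [h1, h2]
    · rw [h1, h2]; exact or_comm
  · rcases this with ⟨h1, h2⟩ | ⟨h1, h2⟩
    · rw [h1, h2]
    · rw [h1, h2]; exact or_comm
  · exact absurd rfl hij

lemma K_symm (h : Good σ f) {x : ZMod 6} {a b : W} (hab : K P σ f x a b) :
    K P σ f x b a := by
  rcases hab with ⟨h1, h2⟩ | ⟨h1, h2, h3⟩
  · left
    refine ⟨h1.symm, ?_⟩
    rw [← h1]
    tauto
  · right
    refine ⟨h1.symm, h2.symm, ?_⟩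
    rw [← h2]
    exact (h.pair' h1 _ _).1 h3

lemma K_irrefl (h : Good σ f) {x : ZMod 6} {a : W} : ¬ K P σ f x a a := by
  rintro (⟨-, h2⟩ | ⟨h1, -⟩)
  · have : σ (P a).1 (P a).2 = (P a).2 := by tauto
    exact h.two _ _ (by rw [this, this])
  · exact h1 rfl

/-- The colour class `x`. -/
def cls (P : W → Bool × V) (h : Good σ f) (x : ZMod 6) : SimpleGraph W where
  Adj a b := K P σ f x a b
  symm := ⟨fun _ _ hab => K_symm h hab⟩
  loopless := ⟨fun _ => K_irrefl h⟩

/-- Degrees in a colour class. -/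
lemma cls_degree (hP : Function.Bijective P) (h : Good σ f) (x : ZMod 6) (a : W)
    (hne : ((cls P h x).neighborSet a).Nonempty) :
    ((cls P h x).neighborSet a).ncard = 2 := by
  obtain ⟨e, he⟩ : ∃ e : W ≃ Bool × V, ⇑e = P := ⟨Equiv.ofBijective P hP, rfl⟩
  have hcol : f (P a).1 (P a).2 = x ∨ f (P a).1 ((σ (P a).1).symm (P a).2) = x := by
    obtain ⟨b, hb⟩ := hne
    have hb : K P σ f x a b := hb
    rcases hb with ⟨h1, h2⟩ | ⟨h1, h2, h3⟩
    · rcases h2 with ⟨h2, h3⟩ | ⟨h2, h3⟩
      · left; exact h3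
      · right; rw [← h2]; simpa using h3
    · exact h3
  have key : ∀ w : V, (∀ v', (σ (P a).1 (P a).2 = v' ∧ f (P a).1 (P a).2 = x) ∨
      (σ (P a).1 v' = (P a).2 ∧ f (P a).1 v' = x) ↔ v' = w) →
      ((cls P h x).neighborSet a) = {e.symm ((P a).1, w), e.symm (!(P a).1, (P a).2)} := by
    intro w hw
    ext b
    have : b ∈ (cls P h x).neighborSet a ↔ K P σ f x a b := Iff.rfl
    rw [this, Set.mem_insert_iff, Set.mem_singleton_iff, Equiv.eq_symm_apply,
      Equiv.eq_symm_apply, he]
    unfold K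
    rw [hw]
    constructor
    · rintro (⟨h1, h2⟩ | ⟨h1, h2, -⟩)
      · left; exact Prod.ext h1.symm h2
      · right
        refine Prod.ext ?_ h2.symm
        revert h1
        cases (P a).1 <;> cases (P b).1 <;> simp
    · rintro (h1 | h1)
      · left; rw [h1]; exact ⟨rfl, rfl⟩
      · right; rw [h1]; exact ⟨by simp, rfl, hcol⟩
  have hpair : ∀ w : V, ({e.symm ((P a).1, w), e.symm (!(P a).1, (P a).2)} : Set W).ncard = 2 := by
    intro w
    apply Set.ncard_pair
    intro h1
    have := congrArg Prod.fst (e.symm.injective h1)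
    simp at this
  rcases hcol with hc | hc
  · rw [key (σ (P a).1 (P a).2), hpair]
    intro v'
    constructor
    · rintro (⟨h1, -⟩ | ⟨h1, h2⟩)
      · exact h1.symm
      · exfalso
        apply h.ne (P a).1 (P a).2
        rw [hc, ← h1]; simpa using h2
    · rintro rfl
      exact Or.inl ⟨rfl, hc⟩
  · rw [key ((σ (P a).1).symm (P a).2), hpair]
    intro v'
    constructor
    · rintro (⟨h1, h2⟩ | ⟨h1, h2⟩)
      · exfalso
        apply h.ne (P a).1 (P a).2
        rw [hc, h2]
      · rw [← h1]; simp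
    · rintro rfl
      exact Or.inr ⟨by simp, hc⟩

/-- A component of a colour class as a subgraph of `G`. -/
def compSub {G : SimpleGraph W} (h : Good σ f) (x : ZMod 6) (hle : cls P h x ≤ G)
    (c : (cls P h x).ConnectedComponent) : G.Subgraph where
  verts := c.supp
  Adj a b := (cls P h x).Adj a b ∧ a ∈ c.supp
  adj_sub := fun hab => hle hab.1
  edge_vert := fun hab => hab.2
  symm := ⟨fun a b hab => ⟨hab.1.symm, by
    have h1 := hab.2
    rw [SimpleGraph.ConnectedComponent.mem_supp_iff] at h1 ⊢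
    rw [← h1]
    exact SimpleGraph.ConnectedComponent.sound hab.1.symm.reachable⟩⟩

lemma compSub_isCircuit {G : SimpleGraph W} (hP : Function.Bijective P) (h : Good σ f)
    (x : ZMod 6) (hle : cls P h x ≤ G) (c : (cls P h x).ConnectedComponent)
    (hc : ∀ a ∈ c.supp, ((cls P h x).neighborSet a).Nonempty) :
    IsCircuit (compSub h x hle c) := by
  constructor
  · constructor
    have h1 := c.connected_toSimpleGraph
    have h2 : (compSub h x hle c).coe = c.toSimpleGraph := by
      ext a b
      constructor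
      · intro hab
        exact hab.1
      · intro hab
        exact ⟨hab, a.2⟩
    rw [h2]
    exact h1
  · intro a ha
    have h3 : (compSub h x hle c).neighborSet a = (cls P h x).neighborSet a := by
      ext b
      constructor
      · intro hab; exact hab.1
      · intro hab; exact ⟨hab, ha⟩
    rw [h3]
    exact cls_degree hP h x a (hc a ha)

lemma reach_nonempty {H : SimpleGraph W} {a b u : W} (hab : H.Adj a b)
    (h : H.Reachable a u) : (H.neighborSet u).Nonempty := by
  obtain ⟨q⟩ := h
  induction q generalizing b with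
  | nil => exact ⟨b, hab⟩
  | cons huv q ih => exact ih huv.symm

/-- **Cover from a colouring.** -/
theorem cover_of_good [Finite W] {G : SimpleGraph W} (hP : Function.Bijective P)
    (h : Good σ f) (w : Sym2 W → ℕ)
    (hG : ∀ a b, G.Adj a b ↔
      ((P a).1 = (P b).1 ∧ (σ (P a).1 (P a).2 = (P b).2 ∨ σ (P a).1 (P b).2 = (P a).2)) ∨
      ((P a).1 ≠ (P b).1 ∧ (P a).2 = (P b).2))
    (hw1 : ∀ a b, G.Adj a b → (P a).1 = (P b).1 → w s(a, b) = 1)
    (hw2 : ∀ a b, G.Adj a b → (P a).1 ≠ (P b).1 → w s(a, b) = 2) :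
    HasFaithfulCircuitCover G w := by
  classical
  have hle : ∀ x, cls P h x ≤ G := by
    intro x a b hab
    have hab : K P σ f x a b := hab
    rw [hG]
    unfold K at hab
    tauto
  -- the index type
  let ι := Σ x : ZMod 6, {c : (cls P h x).ConnectedComponent //
    ∀ a ∈ c.supp, ((cls P h x).neighborSet a).Nonempty}
  have hfin : Finite ι := by
    have : ∀ x, Finite (cls P h x).ConnectedComponent := fun x =>
      inferInstanceAs (Finite (Quot _))
    infer_instance
  have : Fintype ι := Fintype.ofFinite ι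
  let Φ : ι → G.Subgraph := fun i => compSub h i.1 (hle i.1) i.2.1
  have hΦ : ∀ i, IsCircuit (Φ i) := fun i => compSub_isCircuit hP h i.1 (hle i.1) i.2.1 i.2.2
  have hcount : ∀ a b, G.Adj a b → {i | s(a, b) ∈ (Φ i).edgeSet}.ncard =
      {x | K P σ f x a b}.ncard := by
    intro a b hab
    have hmem : ∀ i : ι, s(a, b) ∈ (Φ i).edgeSet ↔
        K P σ f i.1 a b ∧ (cls P h i.1).connectedComponentMk a = i.2.1 := by
      intro i
      rw [SimpleGraph.Subgraph.mem_edgeSet]
      exact Iff.rfl
    have himg : {x | K P σ f x a b} = Sigma.fst '' {i : ι | s(a, b) ∈ (Φ i).edgeSet} := by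
      ext x
      simp only [Set.mem_ofPred_eq, Set.mem_image]
      constructor
      · intro hx
        refine ⟨⟨x, (cls P h x).connectedComponentMk a, ?_⟩, ?_, rfl⟩
        · intro u hu
          rw [SimpleGraph.ConnectedComponent.mem_supp_iff] at hu
          exact reach_nonempty (H := cls P h x) hx (SimpleGraph.ConnectedComponent.exact hu).symm
        · exact (hmem _).2 ⟨hx, rfl⟩
      · rintro ⟨i, hi, rfl⟩
        exact ((hmem i).1 hi).1
    rw [himg, Set.InjOn.ncard_image]
    rintro ⟨x, c, hc⟩ hi ⟨y, d, hd⟩ hj hij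
    simp only at hij
    subst hij
    have h1 := ((hmem _).1 hi).2
    have h2 := ((hmem _).1 hj).2
    simp only at h1 h2
    congr 1
    exact Subtype.ext (h1.symm.trans h2)
  refine ⟨Fintype.card ι, fun k => Φ ((Fintype.equivFin ι).symm k), fun k => hΦ _, ?_⟩
  intro e he
  induction e using Sym2.ind with
  | _ a b =>
  rw [SimpleGraph.mem_edgeSet] at he
  have h1 : {k : Fin (Fintype.card ι) |
      s(a, b) ∈ (Φ ((Fintype.equivFin ι).symm k)).edgeSet}.ncard
      = {i | s(a, b) ∈ (Φ i).edgeSet}.ncard := by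
    have : {k : Fin (Fintype.card ι) | s(a, b) ∈ (Φ ((Fintype.equivFin ι).symm k)).edgeSet}
        = (Fintype.equivFin ι) '' {i | s(a, b) ∈ (Φ i).edgeSet} := by
      ext k
      simp only [Set.mem_ofPred_eq, Set.mem_image]
      constructor
      · intro hk; exact ⟨_, hk, by simp⟩
      · rintro ⟨i, hi, rfl⟩; simpa using hi
    rw [this, Set.ncard_image_of_injective _ (Fintype.equivFin ι).injective]
  rw [h1, hcount a b he]
  by_cases hab : (P a).1 = (P b).1
  · rw [hw1 a b he hab]
    rw [hG] at he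
    have he' : σ (P a).1 (P a).2 = (P b).2 ∨ σ (P a).1 (P b).2 = (P a).2 := by tauto
    rw [Set.ncard_eq_one]
    rcases he' with h2 | h2
    · refine ⟨f (P a).1 (P a).2, ?_⟩
      ext x
      simp only [Set.mem_ofPred_eq, Set.mem_singleton_iff, K]
      have h3 : σ (P a).1 (P b).2 ≠ (P a).2 := by
        rw [← h2]; exact h.two _ _
      constructor
      · intro h4
        have : f (P a).1 (P a).2 = x := by tauto
        exact this.symm
      · rintro rfl
        tauto
    · refine ⟨f (P a).1 (P b).2, ?_⟩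
      ext x
      simp only [Set.mem_ofPred_eq, Set.mem_singleton_iff, K]
      have h3 : σ (P a).1 (P a).2 ≠ (P b).2 := by
        rw [← h2]; exact h.two _ _
      constructor
      · intro h4
        have : f (P a).1 (P b).2 = x := by tauto
        exact this.symm
      · rintro rfl
        tauto
  · rw [hw2 a b he hab]
    rw [hG] at he
    have he' : (P a).2 = (P b).2 := by tauto
    rw [Set.ncard_eq_two]
    refine ⟨f (P a).1 (P a).2, f (P a).1 ((σ (P a).1).symm (P a).2), (h.ne _ _).symm, ?_⟩
    ext x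
    simp only [Set.mem_ofPred_eq, Set.mem_insert_iff, Set.mem_singleton_iff, K]
    constructor
    · intro h4
      have : f (P a).1 (P a).2 = x ∨ f (P a).1 ((σ (P a).1).symm (P a).2) = x := by tauto
      exact this.imp Eq.symm Eq.symm
    · intro h4
      right
      exact ⟨hab, he', h4.imp Eq.symm Eq.symm⟩

end Contra
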