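import Mathlib

/-!
# A finite connected 2-regular graph is given by a cyclic permutation
-/

namespace Contra

variable {A : Type*} [Finite A]

theorem exists_cyclic_perm (H : SimpleGraph A) (hc : H.Connected)
    (h2 : ∀ v, (H.neighborSet v).ncard = 2) :
    ∃ s : Equiv.Perm A, (∀ x y, ∃ k : ℕ, (s ^ k) x = y) ∧ (∀ x, s (s x) ≠ x) ∧
      ∀ x y, H.Adj x y ↔ (s x = y ∨ s y = x) := by
  classical
  obtain ⟨v⟩ := hc.nonempty
  have hcyc : H.IsCycles := fun v _ => h2 v
  have hne : (H.neighborSet v).Nonempty := by
    apply Set.nonempty_of_ncard_ne_zero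
    rw [h2]; norm_num
  obtain ⟨p, hp, hpv⟩ := hcyc.exists_cycle_toSubgraph_verts_eq_connectedComponentSupp
    (c := H.connectedComponentMk v) (v := v) rfl hne
  have hall : ∀ x, x ∈ p.support := by
    intro x
    have : x ∈ p.toSubgraph.verts := by
      rw [hpv]
      exact SimpleGraph.ConnectedComponent.sound (hc.preconnected x v)
    rwa [SimpleGraph.Walk.mem_verts_toSubgraph] at this
  set l := p.support.tail with hl
  have hnd : l.Nodup := hp.support_nodup
  have hlen : l.length = p.length := by
    rw [hl, List.length_tail, SimpleGraph.Walk.length_support]; rfl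
  have h3 : 3 ≤ p.length := hp.three_le_length
  have hget : ∀ i (h : i < l.length), l[i] = p.getVert (i + 1) := by
    intro i h
    rw [← SimpleGraph.Walk.support_getElem_eq_getVert p
      (by rw [SimpleGraph.Walk.length_support]; omega)]
    simp only [hl, List.getElem_tail]
  have hmem : ∀ x, x ∈ l := by
    intro x
    have := hall x
    rw [SimpleGraph.Walk.mem_support_iff] at this
    rcases this with h | h
    · -- `x = v` is the last vertex
      rw [List.mem_iff_getElem]
      refine ⟨p.length - 1, by omega, ?_⟩
      rw [hget, Nat.sub_add_cancel (by omega), SimpleGraph.Walk.getVert_length, h]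
    · exact h
  set s := l.formPerm with hs
  have hs1 : ∀ i (h : i < l.length), s l[i] = l[(i + 1) % l.length]'(Nat.mod_lt _ (by omega)) :=
    fun i h => List.formPerm_apply_getElem l hnd i h
  have hidx : ∀ x, ∃ i, ∃ h : i < l.length, l[i] = x := fun x => List.mem_iff_getElem.1 (hmem x)
  have hadj : ∀ x, H.Adj x (s x) := by
    intro x
    obtain ⟨i, hi, rfl⟩ := hidx x
    rw [hs1 i hi]
    by_cases h : i + 1 < l.length
    · have e : l[(i + 1) % l.length]'(Nat.mod_lt _ (by omega)) = l[i + 1] := by
        congr 1; exact Nat.mod_eq_of_lt h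
      rw [e, hget, hget]
      exact p.adj_getVert_succ (by omega)
    · have h' : i + 1 = l.length := by omega
      have e : l[(i + 1) % l.length]'(Nat.mod_lt _ (by omega)) = l[0] := by
        congr 1; rw [h', Nat.mod_self]
      rw [e, hget, hget, h', hlen, SimpleGraph.Walk.getVert_length]
      have := p.adj_getVert_succ (i := 0) (by omega)
      rwa [SimpleGraph.Walk.getVert_zero] at this
  have hss : ∀ x, s (s x) ≠ x := by
    intro x
    obtain ⟨i, hi, rfl⟩ := hidx x
    rw [hs1 i hi, hs1 _ (Nat.mod_lt _ (by omega))]
    intro h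
    have := (List.Nodup.getElem_inj_iff hnd).1 h
    rw [Nat.mod_add_mod] at this
    have h4 : (i + 1 + 1) % l.length = i % l.length := by rw [this, Nat.mod_eq_of_lt hi]
    have h5 : (i + 1 + 1) ≡ i [MOD l.length] := h4
    have h6 := (Nat.modEq_iff_dvd' (by omega)).1 h5.symm
    have h7 : i + 1 + 1 - i = 2 := by omega
    rw [h7] at h6
    have := Nat.le_of_dvd (by norm_num) h6
    omega
  have hcy : s.IsCycle := List.isCycle_formPerm hnd (by omega)
  have hmv : ∀ x, s x ≠ x := fun x h => (hadj x).ne h.symm
  have hnb : ∀ x, H.neighborSet x = {s x, s.symm x} := by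
    intro x
    symm
    apply Set.eq_of_subset_of_ncard_le
    · rintro y (rfl | rfl)
      · exact hadj x
      · have := hadj (s.symm x)
        rw [Equiv.apply_symm_apply] at this
        exact this.symm
    · rw [h2, Set.ncard_pair]
      intro h
      apply hss (s.symm x)
      rw [Equiv.apply_symm_apply, h]
    · exact Set.toFinite _
  refine ⟨s, fun x y => hcy.exists_pow_eq (hmv x) (hmv y), hss, fun x y => ?_⟩
  rw [← SimpleGraph.mem_neighborSet, hnb]
  simp only [Set.mem_insert_iff, Set.mem_singleton_iff]
  constructor
  · rintro (h | h)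
    · left; exact h.symm
    · right; rw [h]; simp
  · rintro (h | h)
    · left; exact h.symm
    · right; rw [← h]; simp

end Contra
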