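import Mathlib

/-!
# Faithful circuit covers and permutation graphs: definitions
-/

namespace Contra

variable {W : Type*}

/-- A circuit of `G`: a connected 2-regular subgraph of `G`. -/
def IsCircuit {G : SimpleGraph W} (C : G.Subgraph) : Prop :=
  C.Connected ∧ ∀ v ∈ C.verts, (C.neighborSet v).ncard = 2

/-- `(G, w)` has a faithful circuit cover: a finite family of circuits of `G` such that every
edge `e` of `G` lies in exactly `w e` members of the family. -/
def HasFaithfulCircuitCover (G : SimpleGraph W) (w : Sym2 W → ℕ) : Prop :=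
  ∃ (k : ℕ) (F : Fin k → G.Subgraph), (∀ i, IsCircuit (F i)) ∧
    ∀ e ∈ G.edgeSet, {i | e ∈ (F i).edgeSet}.ncard = w e

/-- `G` is a permutation graph: `G` is cubic, `M` is a perfect matching of `G`, and `G - M` is
the union of the two vertex-disjoint chordless circuits `C₁` and `C₂` (an edge of `G` is
outside `M` exactly if it is an edge of `C₁` or of `C₂`). -/
structure IsPermutationGraph (G : SimpleGraph W) (M C₁ C₂ : G.Subgraph) : Prop where
  cubic : ∀ v, (G.neighborSet v).ncard = 3
  matching : M.IsPerfectMatching
  circuit₁ : IsCircuit C₁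
  circuit₂ : IsCircuit C₂
  chordless₁ : C₁.IsInduced
  chordless₂ : C₂.IsInduced
  disjoint : Disjoint C₁.verts C₂.verts
  union : ∀ u v, (G.Adj u v ∧ ¬ M.Adj u v) ↔ (C₁.Adj u v ∨ C₂.Adj u v)

open Classical in
/-- The weight of Q1: `2` on the edges of `M`, `1` on all other edges. -/
noncomputable def weight {G : SimpleGraph W} (M : G.Subgraph) (e : Sym2 W) : ℕ :=
  if e ∈ M.edgeSet then 2 else 1

end Contra
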