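import Mathlib

/-!
# Two involutions on a finite set, one of them with exactly four fixed points

Counting the `ZMod 6`-colourings invariant under both involutions, with the four fixed
points of the second one joined up in the three possible ways.
-/

open Finset

namespace Contra

section Invol

variable {H : Type*}

/-- `f` is invariant under `e` and `t`. -/
def Resp (e t : Equiv.Perm H) (f : H → ZMod 6) : Prop :=
  (∀ h, f (e h) = f h) ∧ ∀ h, f (t h) = f h

/-- The orbit of `p` under `e * t`. -/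
def Orb (e t : Equiv.Perm H) (p : H) (x : H) : Prop := ∃ i : ℤ, ((e * t) ^ i) p = x

variable {e t : Equiv.Perm H} {p : H}

lemma t_zpow (ht : ∀ x, t (t x) = x) (he : ∀ x, e (e x) = x) (hp : t p = p) (i : ℤ) :
    t (((e * t) ^ i) p) = ((e * t) ^ (-i)) p := by
  have ht' : t⁻¹ = t := by
    ext x
    rw [Equiv.Perm.inv_eq_iff_eq]; exact (ht x).symm
  have he' : e⁻¹ = e := by
    ext x
    rw [Equiv.Perm.inv_eq_iff_eq]; exact (he x).symm
  have h1 : t * (e * t) * t⁻¹ = (e * t)⁻¹ := by
    rw [mul_inv_rev, ht', he', mul_assoc, mul_assoc]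
    have : t * t = 1 := by ext x; simp [ht x]
    rw [this, mul_one]
  have h2 : t * (e * t) ^ i * t⁻¹ = (e * t) ^ (-i) := by
    rw [← conj_zpow, h1, inv_zpow, zpow_neg]
  have h3 : (t * (e * t) ^ i * t⁻¹) p = ((e * t) ^ (-i)) p := by rw [h2]
  rw [Equiv.Perm.mul_apply, Equiv.Perm.mul_apply, ht', hp] at h3
  exact h3

lemma e_zpow (ht : ∀ x, t (t x) = x) (he : ∀ x, e (e x) = x) (hp : t p = p) (i : ℤ) :
    e (((e * t) ^ i) p) = ((e * t) ^ (1 - i)) p := by
  have h1 : ((e * t) ^ i) p = t (((e * t) ^ (-i)) p) := by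
    rw [t_zpow ht he hp, neg_neg]
  rw [h1, sub_eq_add_neg, zpow_add, zpow_one, Equiv.Perm.mul_apply, Equiv.Perm.mul_apply]

lemma orb_t (ht : ∀ x, t (t x) = x) (he : ∀ x, e (e x) = x) (hp : t p = p) (x : H) :
    Orb e t p (t x) ↔ Orb e t p x := by
  have key : ∀ y, Orb e t p y → Orb e t p (t y) := by
    rintro y ⟨i, rfl⟩
    exact ⟨-i, (t_zpow ht he hp i).symm⟩
  refine ⟨fun h => ?_, key x⟩
  have := key _ h
  rwa [ht] at this

lemma orb_e (ht : ∀ x, t (t x) = x) (he : ∀ x, e (e x) = x) (hp : t p = p) (x : H) :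
    Orb e t p (e x) ↔ Orb e t p x := by
  have key : ∀ y, Orb e t p y → Orb e t p (e y) := by
    rintro y ⟨i, rfl⟩
    exact ⟨1 - i, (e_zpow ht he hp i).symm⟩
  refine ⟨fun h => ?_, key x⟩
  have := key _ h
  rwa [he] at this

lemma orb_self : Orb e t p p := ⟨0, by simp⟩

lemma orb_const {f : H → ZMod 6} (hf : Resp e t f) {x : H} (hx : Orb e t p x) :
    f x = f p := by
  obtain ⟨i, rfl⟩ := hx
  have h1 : ∀ y, f ((e * t) y) = f y := fun y => by
    rw [Equiv.Perm.mul_apply, hf.1, hf.2]
  have h2 : ∀ y, f ((e * t)⁻¹ y) = f y := fun y => by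
    rw [← h1 ((e * t)⁻¹ y)]; simp
  induction i with
  | zero => simp
  | succ n ih =>
    rw [add_comm, zpow_add, zpow_one, Equiv.Perm.mul_apply, h1, ih]
  | pred n ih =>
    rw [sub_eq_add_neg, add_comm, zpow_add, zpow_neg_one, Equiv.Perm.mul_apply, h2, ih]

/-- The orbit of a `t`-fixed point contains exactly one other `t`-fixed point. -/
lemma orb_partner [Finite H] (ht : ∀ x, t (t x) = x) (he : ∀ x, e (e x) = x)
    (he' : ∀ x, e x ≠ x) (hp : t p = p) :
    ∃ p', Orb e t p p' ∧ p' ≠ p ∧ t p' = p' ∧ ∀ x, Orb e t p x → t x = x → x = p ∨ x = p' := by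
  classical
  obtain ⟨m, hm0, hm⟩ : ∃ m : ℕ, 0 < m ∧ ∀ i : ℤ, ((e * t) ^ i) p = p ↔ (m : ℤ) ∣ i := by
    refine ⟨Function.minimalPeriod (fun x => (e * t) • x) p, ?_, ?_⟩
    · apply Function.minimalPeriod_pos_of_mem_periodicPts
      obtain ⟨n, hn, hn'⟩ := isOfFinOrder_iff_pow_eq_one.1 (isOfFinOrder_of_finite (e * t))
      refine ⟨n, hn, ?_⟩
      rw [Function.IsPeriodicPt, Function.IsFixedPt]
      have : (fun x => (e * t) • x)^[n] p = ((e * t) ^ n) • p := by
        rw [smul_iterate]
      rw [this, hn', one_smul]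
    · intro i
      have := @MulAction.zpow_smul_eq_iff_minimalPeriod_dvd H (Equiv.Perm H) _ _ (e * t) p i
      rw [← this]; rfl
  have hm2 : ∀ i j : ℤ, ((e * t) ^ i) p = ((e * t) ^ j) p ↔ (m : ℤ) ∣ i - j := by
    intro i j
    rw [← hm, sub_eq_neg_add, zpow_add, Equiv.Perm.mul_apply, zpow_neg,
      Equiv.Perm.inv_eq_iff_eq, eq_comm]
  -- m is even
  obtain ⟨k, hk⟩ : ∃ k, m = 2 * k := by
    rcases Nat.even_or_odd m with h | h
    · obtain ⟨k, hk⟩ := h; exact ⟨k, by omega⟩
    · exfalso
      obtain ⟨k, hk⟩ := h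
      apply he' (((e * t) ^ ((k : ℤ) + 1)) p)
      rw [e_zpow ht he hp, hm2]
      refine ⟨-1, ?_⟩
      rw [hk]; push_cast; ring
  have hk0 : 0 < k := by omega
  refine ⟨((e * t) ^ (k : ℤ)) p, ⟨k, rfl⟩, ?_, ?_, ?_⟩
  · intro h
    rw [hm] at h
    have := Int.le_of_dvd (by exact_mod_cast hk0) h
    omega
  · rw [t_zpow ht he hp, hm2]
    refine ⟨-1, ?_⟩
    rw [hk]; push_cast; ring
  · rintro x ⟨j, rfl⟩ hx
    rw [t_zpow ht he hp, hm2] at hx
    obtain ⟨l, hl⟩ := hx
    have hj : j = k * (-l) := by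
      have : (2 : ℤ) * j = 2 * (k * (-l)) := by
        have h3 : -j - j = (2 * (k : ℤ)) * l := by rw [hl, hk]; push_cast; ring
        linarith
      linarith
    rcases Int.even_or_odd (-l) with ⟨r, hr⟩ | ⟨r, hr⟩
    · left
      rw [hm]
      refine ⟨r, ?_⟩
      rw [hj, hr, hk]; push_cast; ring
    · right
      rw [hm2]
      refine ⟨r, ?_⟩
      rw [hj, hr, hk]; push_cast; ring

variable [Fintype H]

open Classical in
/-- Number of invariant colourings with `f p = f q` and `f r = f s`. -/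
noncomputable def NN (e t : Equiv.Perm H) (p q r s : H) : ℕ :=
  (Finset.univ.filter (fun f : H → ZMod 6 => Resp e t f ∧ f p = f q ∧ f r = f s)).card

lemma NN_swap (e t : Equiv.Perm H) (p q r s : H) : NN e t p q r s = NN e t p q s r := by
  classical
  unfold NN
  congr 1
  ext f
  simp only [mem_filter, mem_univ, true_and]
  constructor
  · rintro ⟨h1, h2, h3⟩; exact ⟨h1, h2, h3.symm⟩
  · rintro ⟨h1, h2, h3⟩; exact ⟨h1, h2, h3.symm⟩

lemma even_card_of_shift (S : Finset (H → ZMod 6)) [Nonempty H]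
    (hS : ∀ f ∈ S, (fun h => f h + 3) ∈ S) : 2 ∣ S.card := by
  classical
  have h1 : (∑ f ∈ S, (1 : ZMod 2)) = 0 := by
    apply Finset.sum_involution (fun f _ => (fun h => f h + 3))
    · intro f hf; decide
    · intro f hf _ h
      obtain ⟨x⟩ := (inferInstance : Nonempty H)
      have := congrFun h x
      simp at this
      revert this; decide
    · intro f hf
      funext h
      have : (3 : ZMod 6) + 3 = 0 := by decide
      simp [add_assoc, this]
    · intro f hf
      exact hS f hf
  rw [Finset.sum_const, nsmul_eq_mul, mul_one] at h1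
  exact (ZMod.natCast_eq_zero_iff _ _).1 h1

/-- Core count. -/
lemma core_count {a b c d : H} (O : H → Prop) (hOe : ∀ x, O (e x) ↔ O x)
    (hOt : ∀ x, O (t x) ↔ O x) (hc : O c) (ha : ¬ O a)
    (hcd : ∀ f, Resp e t f → f c = f d) (hab : ∀ f, Resp e t f → f a = f b) :
    16 ∣ NN e t a b c d + NN e t a c b d + NN e t a d b c := by
  classical
  set S2 : Finset (H → ZMod 6) :=
    Finset.univ.filter (fun f => Resp e t f ∧ f a = f c) with hS2
  have h1 : NN e t a c b d = S2.card := by
    unfold NN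
    congr 1
    ext f
    simp only [hS2, mem_filter, mem_univ, true_and]
    constructor
    · rintro ⟨h1, h2, h3⟩; exact ⟨h1, h2⟩
    · rintro ⟨h1, h2⟩; refine ⟨h1, h2, ?_⟩; rw [← hab f h1, ← hcd f h1, h2]
  have h2 : NN e t a d b c = S2.card := by
    unfold NN
    congr 1
    ext f
    simp only [hS2, mem_filter, mem_univ, true_and]
    constructor
    · rintro ⟨h1, h2, h3⟩; refine ⟨h1, ?_⟩; rw [hcd f h1]; exact h2
    · rintro ⟨h1, h2⟩; refine ⟨h1, ?_, ?_⟩
      · rw [← hcd f h1]; exact h2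
      · rw [← hab f h1]; exact h2
  have h3 : NN e t a b c d = 6 * S2.card := by
    unfold NN
    have : 6 * S2.card = ((Finset.univ : Finset (ZMod 6)) ×ˢ S2).card := by
      rw [Finset.card_product]; rfl
    rw [this]
    symm
    apply Finset.card_bij'
      (fun (q : ZMod 6 × (H → ZMod 6)) _ => (fun h => q.2 h + if O h then q.1 else 0))
      (fun (g : H → ZMod 6) _ => (g c - g a, (fun h => g h - if O h then g c - g a else 0)))
    · rintro ⟨k, f⟩ hf
      simp only [mem_product, mem_univ, true_and, hS2, mem_filter] at hf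
      obtain ⟨⟨hf1, hf2⟩, hf3⟩ := hf
      have hr : Resp e t (fun h => f h + if O h then k else 0) := by
        refine ⟨fun h => ?_, fun h => ?_⟩
        · simp only [hOe, hf1]
        · simp only [hOt, hf2]
      simp only [mem_filter, mem_univ, true_and]
      exact ⟨hr, hab _ hr, hcd _ hr⟩
    · intro g hg
      simp only [mem_filter, mem_univ, true_and] at hg
      obtain ⟨⟨hf1, hf2⟩, -, -⟩ := hg
      simp only [mem_product, mem_univ, true_and, hS2, mem_filter]
      refine ⟨⟨fun h => ?_, fun h => ?_⟩, ?_⟩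
      · simp only [hOe, hf1]
      · simp only [hOt, hf2]
      · simp [hc, ha]
    · rintro ⟨k, f⟩ hf
      simp only [mem_product, mem_univ, true_and, hS2, mem_filter] at hf
      obtain ⟨⟨hf1, hf2⟩, hf3⟩ := hf
      ext1
      · simp [hc, ha, hf3]
      · funext h
        by_cases hh : O h
        · simp [hc, ha, hf3, hh]
        · simp [hh]
    · intro g hg
      funext h
      by_cases hh : O h
      · simp [hh]
      · simp [hh]
  have h4 : 2 ∣ S2.card := by
    have : Nonempty H := ⟨a⟩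
    apply even_card_of_shift
    intro f hf
    simp only [hS2, mem_filter, mem_univ, true_and] at hf ⊢
    obtain ⟨⟨hf1, hf2⟩, hf3⟩ := hf
    exact ⟨⟨fun h => by simp only [hf1], fun h => by simp only [hf2]⟩, by rw [hf3]⟩
  rw [h1, h2, h3]
  obtain ⟨r, hr⟩ := h4
  refine ⟨r, ?_⟩
  rw [hr]; ring

/-- **Lemma A.** -/
theorem four_fixed (ht : ∀ x, t (t x) = x) (he : ∀ x, e (e x) = x)
    (he' : ∀ x, e x ≠ x) {a b c d : H}
    (hab : a ≠ b) (hac : a ≠ c) (had : a ≠ d) (hbc : b ≠ c) (hbd : b ≠ d) (hcd : c ≠ d)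
    (hfix : ∀ x, t x = x ↔ x = a ∨ x = b ∨ x = c ∨ x = d) :
    16 ∣ NN e t a b c d + NN e t a c b d + NN e t a d b c := by
  have hta : t a = a := (hfix a).2 (Or.inl rfl)
  have htb : t b = b := (hfix b).2 (Or.inr (Or.inl rfl))
  have htc : t c = c := (hfix c).2 (Or.inr (Or.inr (Or.inl rfl)))
  have htd : t d = d := (hfix d).2 (Or.inr (Or.inr (Or.inr rfl)))
  -- generic statement: if `p` is the partner of `a` and `r, s` are the remaining points
  have key : ∀ p r s : H, t r = r → r ≠ a → r ≠ p → s ≠ r →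
      (∀ x, t x = x ↔ x = a ∨ x = p ∨ x = r ∨ x = s) →
      Orb e t a p → (∀ x, Orb e t a x → t x = x → x = a ∨ x = p) →
      16 ∣ NN e t a p r s + NN e t a r p s + NN e t a s p r := by
    intro p r s htr hra hrp hsr hall hO hOu
    obtain ⟨r', hr'1, hr'2, hr'3, hr'4⟩ := orb_partner ht he he' htr
    -- orbits of `a` and `r` are disjoint
    have hdis : ∀ x, Orb e t r x → ¬ Orb e t a x := by
      rintro x ⟨i, hi⟩ ⟨j, hj⟩
      have : Orb e t a r := by
        refine ⟨-i + j, ?_⟩
        rw [zpow_add, Equiv.Perm.mul_apply, hj, ← hi, ← Equiv.Perm.mul_apply, ← zpow_add]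
        simp
      rcases hOu r this htr with h | h
      · exact hra h
      · exact hrp h
    have hr's : r' = s := by
      rcases (hall r').1 hr'3 with h | h | h | h
      · subst h; exact absurd orb_self (hdis _ hr'1)
      · subst h; exact absurd hO (hdis _ hr'1)
      · exact absurd h hr'2
      · exact h
    subst hr's
    refine core_count (Orb e t r) (orb_e ht he htr) (orb_t ht he htr) orb_self ?_ ?_ ?_
    · intro h; exact hdis a h orb_self
    · intro f hf; exact (orb_const hf hr'1).symm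
    · intro f hf; exact (orb_const hf hO).symm
  obtain ⟨p, hp1, hp2, hp3, hp4⟩ := orb_partner ht he he' hta
  rcases (hfix p).1 hp3 with h | h | h | h
  · exact absurd h hp2
  · subst h
    exact key p c d htc hac.symm hbc.symm hcd.symm hfix hp1 hp4
  · subst h
    have := key p b d htb hab.symm hbc hbd.symm (fun x => by rw [hfix x]; tauto) hp1 hp4
    rw [NN_swap e t a d p b] at this
    rw [add_comm (NN e t a b p d)]
    exact this
  · subst h
    have := key p b c htb hab.symm hbd hbc.symm (fun x => by rw [hfix x]; tauto) hp1 hp4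
    rw [NN_swap e t a b p c, NN_swap e t a c p b] at this
    convert this using 1
    ring

end Invol

end Contra
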