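import Pool.Agent.Helper310.Contra.Cover
import Pool.Agent.Helper310.Contra.Cyc

/-!
# Permutation graphs have faithful circuit covers unless `|V| ≡ 2 (mod 8)`
-/

namespace Contra

variable {W : Type*} {G : SimpleGraph W}

lemma circuit_perm [Finite W] {C : G.Subgraph} (hC : IsCircuit C) :
    ∃ s : Equiv.Perm C.verts, (∀ x y, ∃ k : ℕ, (s ^ k) x = y) ∧ (∀ x, s (s x) ≠ x) ∧
      ∀ x y : C.verts, C.Adj x y ↔ (s x = y ∨ s y = x) := by
  have h2 : ∀ v, (C.coe.neighborSet v).ncard = 2 := by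
    intro v
    have h1 := hC.2 v.1 v.2
    rw [← h1]
    exact Nat.card_congr (SimpleGraph.Subgraph.coeNeighborSetEquiv v)
  exact exists_cyclic_perm C.coe hC.1.coe h2

lemma conj_pow {A B : Type*} (e : A ≃ B) (s : Equiv.Perm B) (k : ℕ) (x : A) :
    (((e.trans s).trans e.symm : Equiv.Perm A) ^ k) x = e.symm ((s ^ k) (e x)) := by
  induction k with
  | zero => simp
  | succ k ih => rw [pow_succ', Equiv.Perm.mul_apply, ih, pow_succ', Equiv.Perm.mul_apply]; simp

theorem cover_of_card [Finite W] (M C₁ C₂ : G.Subgraph) (h : IsPermutationGraph G M C₁ C₂)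
    (hn : Nat.card W % 8 ≠ 2) : HasFaithfulCircuitCover G (weight M) := by
  classical
  obtain ⟨s₁, hs₁, hs₁', hs₁''⟩ := circuit_perm h.circuit₁
  obtain ⟨s₂, hs₂, hs₂', hs₂''⟩ := circuit_perm h.circuit₂
  -- the matching
  have hM : ∀ v, ∃! w, M.Adj v w := fun v => h.matching.1 (h.matching.2 v)
  choose m hm hmu using hM
  have hmm : ∀ v, m (m v) = v := fun v => (hmu (m v) v (hm v).symm).symm
  have hadjm : ∀ a b, M.Adj a b ↔ m a = b := fun a b =>
    ⟨fun hab => (hmu a b hab).symm, fun hab => hab ▸ hm a⟩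
  have hnotboth : ∀ v, v ∈ C₁.verts → v ∉ C₂.verts := fun v h1 h2 =>
    Set.disjoint_left.1 h.disjoint h1 h2
  have hall : ∀ v, v ∉ C₁.verts → v ∈ C₂.verts := by
    intro v hv
    have h3 := h.cubic v
    obtain ⟨u, hu, hum⟩ : ∃ u ∈ G.neighborSet v, u ≠ m v := by
      apply Set.exists_ne_of_one_lt_ncard
      rw [h3]; norm_num
    have h4 : ¬ M.Adj v u := fun h5 => hum (hmu v u h5)
    rcases (h.union v u).1 ⟨hu, h4⟩ with h5 | h5
    · exact absurd h5.fst_mem hv
    · exact h5.fst_mem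
  have hm12 : ∀ v, v ∈ C₁.verts → m v ∈ C₂.verts := by
    intro v hv
    apply hall
    intro hv'
    have := h.chordless₁ hv hv' (hm v).adj_sub
    exact ((h.union _ _).2 (Or.inl this)).2 (hm v)
  have hm21 : ∀ v, v ∈ C₂.verts → m v ∈ C₁.verts := by
    intro v hv
    by_contra hv'
    have := h.chordless₂ hv (hall _ hv') (hm v).adj_sub
    exact ((h.union _ _).2 (Or.inr this)).2 (hm v)
  let φ : C₁.verts ≃ C₂.verts :=
    ⟨fun v => ⟨m v, hm12 _ v.2⟩, fun v => ⟨m v, hm21 _ v.2⟩,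
      fun v => Subtype.ext (hmm _), fun v => Subtype.ext (hmm _)⟩
  let σ : Bool → Equiv.Perm C₁.verts := fun i =>
    if i = true then s₁ else (φ.trans s₂).trans φ.symm
  have hσt : σ true = s₁ := rfl
  have hσf : σ false = (φ.trans s₂).trans φ.symm := rfl
  let P : W → Bool × C₁.verts := fun v =>
    if hv : v ∈ C₁.verts then (true, ⟨v, hv⟩) else (false, ⟨m v, hm21 _ (hall _ hv)⟩)
  have hP1 : ∀ v (hv : v ∈ C₁.verts), P v = (true, ⟨v, hv⟩) := fun v hv => dif_pos hv
  have hP2 : ∀ v (hv : v ∉ C₁.verts), P v = (false, ⟨m v, hm21 _ (hall _ hv)⟩) :=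
    fun v hv => dif_neg hv
  have hPbij : Function.Bijective P := by
    constructor
    · intro a b hab
      by_cases ha : a ∈ C₁.verts <;> by_cases hb : b ∈ C₁.verts
      · rw [hP1 a ha, hP1 b hb] at hab
        simpa using hab
      · rw [hP1 a ha, hP2 b hb] at hab
        simp at hab
      · rw [hP2 a ha, hP1 b hb] at hab
        simp at hab
      · rw [hP2 a ha, hP2 b hb] at hab
        have : m a = m b := by simpa using hab
        rw [← hmm a, this, hmm]
    · rintro ⟨i, v, hv⟩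
      cases i
      · refine ⟨m v, ?_⟩
        have h5 : m v ∉ C₁.verts := fun h6 => hnotboth _ h6 (hm12 _ hv)
        rw [hP2 _ h5]
        simp [hmm]
      · exact ⟨v, hP1 v hv⟩
  have hσ : ∀ i x y, ∃ k : ℕ, (σ i ^ k) x = y := by
    intro i x y
    cases i
    · obtain ⟨k, hk⟩ := hs₂ (φ x) (φ y)
      refine ⟨k, ?_⟩
      rw [hσf, conj_pow, hk]; simp
    · exact hs₁ x y
  have hσ2 : ∀ i v, σ i (σ i v) ≠ v := by
    intro i v
    cases i
    · rw [hσf]
      intro h1
      apply hs₂' (φ v)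
      have := congrArg φ h1
      simpa using this
    · exact hs₁' v
  have hne : Nonempty C₁.verts := h.circuit₁.1.coe.nonempty
  have : Fintype C₁.verts := Fintype.ofFinite _
  have hcard : Nat.card W = 2 * Fintype.card C₁.verts := by
    rw [Nat.card_eq_of_bijective P hPbij, Nat.card_prod]
    simp
  obtain ⟨f, hf1, hf2⟩ := exists_colouring σ hσ (by omega)
  have hgood : Good σ f := ⟨hf1, hf2, hσ2⟩
  have hadj : ∀ a b, G.Adj a b ↔
      ((P a).1 = (P b).1 ∧ (σ (P a).1 (P a).2 = (P b).2 ∨ σ (P a).1 (P b).2 = (P a).2)) ∨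
      ((P a).1 ≠ (P b).1 ∧ (P a).2 = (P b).2) := by
    intro a b
    by_cases ha : a ∈ C₁.verts <;> by_cases hb : b ∈ C₁.verts
    · rw [hP1 a ha, hP1 b hb]
      have h5 : G.Adj a b ↔ C₁.Adj a b := ⟨fun h6 => h.chordless₁ ha hb h6, fun h6 => h6.adj_sub⟩
      rw [h5, hs₁'' ⟨a, ha⟩ ⟨b, hb⟩]
      simp [hσt]
    · rw [hP1 a ha, hP2 b hb]
      have h5 : G.Adj a b ↔ M.Adj a b := by
        refine ⟨fun h6 => ?_, fun h6 => h6.adj_sub⟩
        by_contra h7
        rcases (h.union a b).1 ⟨h6, h7⟩ with h8 | h8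
        · exact hb h8.snd_mem
        · exact hnotboth a ha h8.fst_mem
      rw [h5, hadjm]
      simp only [ne_eq, Bool.true_eq_false, not_false_eq_true, true_and, false_and, false_or,
        Subtype.mk.injEq]
      constructor
      · rintro rfl; exact (hmm a).symm
      · rintro rfl; exact hmm b
    · rw [hP2 a ha, hP1 b hb]
      have h5 : G.Adj a b ↔ M.Adj a b := by
        refine ⟨fun h6 => ?_, fun h6 => h6.adj_sub⟩
        by_contra h7
        rcases (h.union a b).1 ⟨h6, h7⟩ with h8 | h8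
        · exact ha h8.fst_mem
        · exact hnotboth b hb h8.snd_mem
      rw [h5, hadjm]
      simp
    · rw [hP2 a ha, hP2 b hb]
      have ha2 := hall a ha
      have hb2 := hall b hb
      have h5 : G.Adj a b ↔ C₂.Adj a b :=
        ⟨fun h6 => h.chordless₂ ha2 hb2 h6, fun h6 => h6.adj_sub⟩
      have h6 : ∀ (x : C₁.verts) (y : W) (hy : y ∉ C₁.verts), φ ⟨m y, hm21 _ (hall _ hy)⟩ =
          ⟨y, hall y hy⟩ := fun x y hy => Subtype.ext (hmm y)
      rw [h5, hs₂'' ⟨a, ha2⟩ ⟨b, hb2⟩]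
      simp only [true_and, ne_eq, not_true_eq_false, false_and, or_false, hσf,
        Equiv.trans_apply, Equiv.symm_apply_eq]
      rw [h6 (Classical.arbitrary _) a ha, h6 (Classical.arbitrary _) b hb]
  refine cover_of_good hPbij hgood (weight M) hadj ?_ ?_
  · intro a b hab hPab
    unfold weight
    rw [if_neg]
    rw [SimpleGraph.Subgraph.mem_edgeSet]
    by_cases ha : a ∈ C₁.verts <;> by_cases hb : b ∈ C₁.verts
    · exact ((h.union a b).2 (Or.inl (h.chordless₁ ha hb hab))).2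
    · rw [hP1 a ha, hP2 b hb] at hPab; simp at hPab
    · rw [hP2 a ha, hP1 b hb] at hPab; simp at hPab
    · exact ((h.union a b).2 (Or.inr (h.chordless₂ (hall _ ha) (hall _ hb) hab))).2
  · intro a b hab hPab
    unfold weight
    rw [if_pos]
    rw [SimpleGraph.Subgraph.mem_edgeSet]
    by_contra h7
    rcases (h.union a b).1 ⟨hab, h7⟩ with h8 | h8
    · exact hPab (by rw [hP1 a h8.fst_mem, hP1 b h8.snd_mem])
    · have ha : a ∉ C₁.verts := fun h9 => hnotboth a h9 h8.fst_mem
      have hb : b ∉ C₁.verts := fun h9 => hnotboth b h9 h8.snd_mem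
      exact hPab (by rw [hP2 a ha, hP2 b hb])

end Contra
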